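import Mathlib
import Pool.Agent.T9h23.Li.E2

set_option autoImplicit false

/-!
# Chowla's conjecture for all products of compositions at once, for almost all polynomials

Let `f_1, …, f_r` be random polynomials, `f_j = P_j + a_{j,0} + a_{j,1} X + ⋯ + a_{j,d_j} X ^ d_j`, where the `P_j` are
fixed polynomials and the `a_{j,i}` are independent and uniform in `[-H, H]`. For almost all `(f_1, …, f_r)` the sums of
the Liouville function at the values of ALL the polynomials `F = ∏ f_j(g(X))` (the product over all `j` and all `g` in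
`G_j`), where the `G_j` are arbitrary sets of at most `k` nonconstant integer polynomials of degree at most `D` with
coefficients at most `(log H) ^ A`, have square root cancellation simultaneously, up to a factor `(log H) ^ ε`, in all
ranges `1 ≤ n ≤ x ≤ (log H) ^ A` and with all polynomial phases `e(q(n))`, `deg q ≤ E`. For instance, with `g = c X + m`,
for almost every `f` one has cancellation in the sums of `λ(f(n))`, of `λ(f(n) f(n + h))` (all `h`), …, in all short
intervals and arithmetic progressions up to `(log H) ^ A`. The degrees `d_j` are at least `R k`, where `R` is so large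
that `2 R ε` exceeds the exponent of the number of the sums considered, which is a power of `log H`.

Proof (`Pool/Agent/T9h23`). The signs `λ(f_j(m))` are almost `(2 d_j + 1)`-wise independent, with any power of
`log H` as a saving: the values of `f_j` at up to `2 d_j + 1` points are controlled by shifting `f_j` by
`a ∏ (X - s) + b ∏ (X - t)` with two disjoint sets of at most `d_j` of the points, and bilinear sums with `λ` are small by
Davenport's bound. So the moments of order `2 R` of each of the sums are bounded as in Bonami's inequality for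
independent signs, and the phases are replaced by those of a grid.
-/

namespace Pool.Agent.Results.MP_892e4c_nt.AllSystemsAllPhases

open Finset Polynomial

/-- The Liouville function on the integers: `λ(m) = (-1) ^ Ω(|m|)` for `m ≠ 0` and `λ(0) = 0`. -/
noncomputable def liouville (m : ℤ) : ℝ := if m = 0 then 0 else (-1) ^ ArithmeticFunction.cardFactors m.natAbs

/-- The polynomial `P + a 0 + a 1 X + ⋯ + a d X ^ d`. -/
noncomputable def poly {d : ℕ} (P : ℤ[X]) (a : Fin (d + 1) → ℤ) : ℤ[X] := P + ∑ i, C (a i) * X ^ (i : ℕ)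

variable {r : ℕ}

/-- The polynomial `F = ∏ f_j(g(X))`, the product over all `j` and all `g` in `G_j`. -/
noncomputable def product (f : Fin r → ℤ[X]) (G : Fin r → Finset ℤ[X]) : ℤ[X] := ∏ j, ∏ g ∈ G j, (f j).comp g

/-- The sum of `e(q(n)) λ(F(n))` over `1 ≤ n ≤ x`, where `e(t) = exp(2 π i t)`. -/
noncomputable def twistedSum (q : ℝ[X]) (F : ℤ[X]) (x : ℕ) : ℂ :=
  ∑ n ∈ Icc 1 x, Complex.exp (2 * Real.pi * Complex.I * ((q.eval (n : ℝ) : ℝ) : ℂ)) * (liouville (F.eval (n : ℤ)) : ℂ)

/-- For all `G_j`, not all of them empty, of at most `k` polynomials of degrees between `1` and `D` with coefficients at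
most `X`, all real polynomials `q` of degree at most `E` and all `x ≤ X`:
`|∑_{n ≤ x} e(q(n)) λ(F(n))| ≤ √x Y`. -/
def Cancels (k D E : ℕ) (X Y : ℝ) (f : Fin r → ℤ[X]) : Prop :=
  ∀ G : Fin r → Finset ℤ[X], (∀ j, (G j).card ≤ k) → (∃ j, (G j).Nonempty) →
    (∀ j, ∀ g ∈ G j, 1 ≤ g.natDegree ∧ g.natDegree ≤ D ∧ ∀ i, |(g.coeff i : ℝ)| ≤ X) →
    ∀ q : ℝ[X], q.natDegree ≤ E → ∀ x : ℕ, (x : ℝ) ≤ X → ‖twistedSum q (product f G) x‖ ≤ √(x : ℝ) * Y

open Pool.Agent.T9h23.Cor Pool.Agent.T9h23.BH Pool.Agent.T9h23.Li Pool.Agent.H373R2.T7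

/-- Let `k, D, E, A, r`, `R ≥ 1`, `c > 0` and `ε` be such that
`r k (D + 1) A + A + (E + 1) (A (E + 1) + 2) + 2 + c < 2 R ε`, let `d_j ≥ R k` for all `j < r`, and let `D'` be given. For
every large `H` and all polynomials `P_j` of degree at most `D'` with coefficients at most `H (log H) ^ A` the number of
the integers `a_{j,i}` (`j < r`, `0 ≤ i ≤ d_j`) with `|a_{j,i}| ≤ H` for which the bounds with `X = (log H) ^ A` and
`Y = (log H) ^ ε` do not all hold for `f_j = P_j + ∑ a_{j,i} X ^ i` is at most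
`∏ (2 H + 1) ^ (d_j + 1) / (log H) ^ c`. -/
theorem result (r k D D' E R A : ℕ) (hR : 1 ≤ R) (d : Fin r → ℕ) (hd : ∀ j, R * k ≤ d j) (ε c : ℝ) (hc : 0 < c)
    (h : ((r * k * (D + 1) * A + A + (E + 1) * (A * (E + 1) + 2) + 2 : ℕ) : ℝ) + c < 2 * R * ε) :
    ∃ H₀ : ℕ, ∀ H : ℕ, H₀ ≤ H → ∀ P : Fin r → ℤ[X], (∀ j, (P j).natDegree ≤ D') →
    (∀ j i, |((P j).coeff i : ℝ)| ≤ H * Real.log H ^ A) →
    ({a : (j : Fin r) → Fin (d j + 1) → ℤ | (∀ j i, |a j i| ≤ H) ∧
      ¬ Cancels k D E (Real.log H ^ A) (Real.log H ^ ε) (fun j => poly (P j) (a j))}.ncard : ℝ) ≤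
      (∏ j, (2 * (H : ℝ) + 1) ^ (d j + 1)) / Real.log H ^ c := by
  classical
  obtain ⟨H0, h0⟩ := uniF r k D (max D D') E R A d hR hd ε c hc.le h
  refine ⟨H0, fun H hH P hP1 hP2 => ?_⟩
  have hmain := h0 H hH P
  refine le_trans (Nat.cast_le.2 ?_) hmain
  rw [← Set.ncard_coe_finset]
  apply Set.ncard_le_ncard _ (finite_toSet _)
  rintro a ⟨ha1, ha2⟩
  rw [mem_coe, mem_filter]
  refine ⟨?_, fun hC => ha2 ?_⟩
  · unfold Om
    rw [Fintype.mem_piFinset]
    intro j
    rw [mem_Box]
    exact ha1 j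
  · intro G hG1 hne hG2 q hq x hx
    have hkd : ∀ j, (G j).card ≤ d j := fun j => (hG1 j).trans ((Nat.le_mul_of_pos_left _ hR).trans (hd j))
    exact hC G ⟨⟨hkd, fun j g hg => ⟨(hG2 j g hg).1, (hG2 j g hg).2.1.trans (le_max_left _ _)⟩⟩,
      ⟨fun j => (hP1 j).trans (le_max_right _ _), hP2, fun j g hg i => (hG2 j g hg).2.2 i⟩, hG1, hne⟩
      (fun j g hg => (hG2 j g hg).2.1) q hq x hx

end Pool.Agent.Results.MP_892e4c_nt.AllSystemsAllPhases
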