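import Mathlib
import Pool.Agent.T9h23.Li.D3

set_option autoImplicit false

/-!
# Chowla's conjecture with square root cancellation for almost all products of compositions

Let `f_1, …, f_r` be random polynomials, `f_j = P_j + a_{j,0} + a_{j,1} X + ⋯ + a_{j,d_j} X ^ d_j`, where the `P_j` are
fixed polynomials and the `a_{j,i}` are independent and uniform in `[-H, H]`, and for each `j` let `G_j` be a set of at
most `d_j / R` nonconstant integer polynomials (for instance `X, X + 2, X + 6, …, X ^ 2, …`). Chowla's conjecture for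
the polynomial `F = ∏ f_j(g(X))`, the product over all `j` and all `g` in `G_j`, holds in the form
`|∑_{n ≤ x} w(n) λ(F(n))| ≤ x ^ (1/2 + ε)` for all `x₀ ≤ x ≤ (log H) ^ A`, with arbitrary bounded weights `w`, for all
but a proportion `x₀ ^ (-R ε)` of the `(f_1, …, f_r)`; here `x₀` may be as small as a constant.

Proof (`Pool/Agent/T9h23`). The values of `f_j` at up to `2 d_j + 1` points are controlled by shifting `f_j` by
`a ∏ (X - s) + b ∏ (X - t)` with two disjoint sets of at most `d_j` of the points: the value at the last point is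
`f + a α + b β`, all other values depend on one of `a`, `b` only, and bilinear sums with `λ` are small by Davenport's
bound for its exponential sums. So the signs `λ(f_j(m))` are almost `(2 d_j + 1)`-wise independent, with any power of
`log H` as a saving. The moments of order `2 R` of the polynomials in these signs are therefore bounded as in Bonami's
inequality for independent signs, and all `x` are treated at once by dyadic chaining.
-/

namespace Pool.Agent.Results.MP_892e4c_nt.CorrelationsOfRandomPolynomials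

open Finset Polynomial

/-- The Liouville function on the integers: `λ(m) = (-1) ^ Ω(|m|)` for `m ≠ 0` and `λ(0) = 0`. -/
noncomputable def liouville (m : ℤ) : ℝ := if m = 0 then 0 else (-1) ^ ArithmeticFunction.cardFactors m.natAbs

/-- The polynomial `P + a 0 + a 1 X + ⋯ + a d X ^ d`. -/
noncomputable def poly {d : ℕ} (P : ℤ[X]) (a : Fin (d + 1) → ℤ) : ℤ[X] := P + ∑ i, C (a i) * X ^ (i : ℕ)

variable {r : ℕ}

/-- The polynomial `F = ∏ f_j(g(X))`, the product over all `j` and all `g` in `G_j`. -/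
noncomputable def product (f : Fin r → ℤ[X]) (G : Fin r → Finset ℤ[X]) : ℤ[X] := ∏ j, ∏ g ∈ G j, (f j).comp g

/-- `|∑_{n ≤ x} w(n) λ(F(n))| ≤ x ^ (1/2 + ε)` for all `x₀ ≤ x ≤ X`. -/
def Cancels (w : ℕ → ℝ) (ε x₀ X : ℝ) (F : ℤ[X]) : Prop :=
  ∀ x : ℕ, x₀ ≤ x → (x : ℝ) ≤ X → |∑ n ∈ Icc 1 x, w n * liouville (F.eval (n : ℤ))| ≤ (x : ℝ) ^ (1 / 2 + ε)

open Pool.Agent.T9h23.Cor Pool.Agent.T9h23.BH Pool.Agent.T9h23.Li Pool.Agent.H373R2.T7

/-- Let `R ≥ 1`, `d_j ≥ 0` (`j < r`), `D` and `ε > 0`. There is a constant `X₀` such that for every `A`, every large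
`H`, all polynomials `P_j` of degree at most `D` with coefficients at most `H (log H) ^ A`, all sets `G_j`, not all of
them empty, of at most `d_j / R` polynomials of degrees between `1` and `D` with coefficients at most `(log H) ^ A`,
all weights `w` with `|w(n)| ≤ 1` and every `x₀ ≥ X₀`: the number of the integers `a_{j,i}` (`j < r`, `0 ≤ i ≤ d_j`)
with `|a_{j,i}| ≤ H` for which the bound fails for `f_j = P_j + ∑ a_{j,i} X ^ i` is at most
`∏ (2 H + 1) ^ (d_j + 1) / x₀ ^ (R ε)`. -/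
theorem result (r D R : ℕ) (hR : 1 ≤ R) (d : Fin r → ℕ) (ε : ℝ) (hε : 0 < ε) :
    ∃ X₀ : ℝ, 1 ≤ X₀ ∧ ∀ A : ℕ, ∃ H₀ : ℕ, ∀ H : ℕ, H₀ ≤ H → ∀ P : Fin r → ℤ[X], (∀ j, (P j).natDegree ≤ D) →
    (∀ j i, |((P j).coeff i : ℝ)| ≤ H * Real.log H ^ A) → ∀ G : Fin r → Finset ℤ[X], (∀ j, R * (G j).card ≤ d j) →
    (∃ j, (G j).Nonempty) →
    (∀ j, ∀ g ∈ G j, 1 ≤ g.natDegree ∧ g.natDegree ≤ D ∧ ∀ i, |(g.coeff i : ℝ)| ≤ Real.log H ^ A) →
    ∀ w : ℕ → ℝ, (∀ n, |w n| ≤ 1) → ∀ x₀ : ℝ, X₀ ≤ x₀ →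
    ({a : (j : Fin r) → Fin (d j + 1) → ℤ | (∀ j i, |a j i| ≤ H) ∧
      ¬ Cancels w ε x₀ (Real.log H ^ A) (product (fun j => poly (P j) (a j)) G)}.ncard : ℝ) ≤
      (∏ j, (2 * (H : ℝ) + 1) ^ (d j + 1)) / x₀ ^ (R * ε) := by
  classical
  rcases le_or_gt ε 1 with hε1 | hε1
  · obtain ⟨X0, hX0, hfin⟩ := finF r d D R hR ε hε hε1
    refine ⟨X0, hX0, fun A => ?_⟩
    obtain ⟨H0, h0⟩ := hfin A
    refine ⟨H0, fun H hH P hP1 hP2 G hG1 hne hG2 w hw x0 hx0 => ?_⟩
    have hG1' : ∀ j, (G j).card ≤ d j := fun j => (Nat.le_mul_of_pos_left _ hR).trans (hG1 j)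
    have hmain := h0 H hH P G ⟨hG1', fun j g hg => ⟨(hG2 j g hg).1, (hG2 j g hg).2.1⟩⟩
      ⟨hP1, hP2, fun j g hg i => (hG2 j g hg).2.2 i⟩ hG1 hne w hw x0 hx0
    refine le_trans (Nat.cast_le.2 ?_) hmain
    rw [← Set.ncard_coe_finset]
    apply Set.ncard_le_ncard _ (finite_toSet _)
    rintro a ⟨ha1, ha2⟩
    rw [mem_coe, mem_filter]
    refine ⟨?_, fun hC => ha2 fun x hx1 hx2 => hC x hx1 hx2⟩
    unfold Om
    rw [Fintype.mem_piFinset]
    intro j
    rw [mem_Box]
    exact ha1 j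
  · refine ⟨1, le_rfl, fun A => ⟨0, fun H _ P _ _ G _ _ _ w hw x0 hx0 => ?_⟩⟩
    have hemp : {a : (j : Fin r) → Fin (d j + 1) → ℤ | (∀ j i, |a j i| ≤ H) ∧
      ¬ Cancels w ε x0 (Real.log H ^ A) (product (fun j => poly (P j) (a j)) G)} = ∅ := by
      rw [Set.eq_empty_iff_forall_notMem]
      rintro a ⟨_, ha⟩
      apply ha
      intro x hx1 _
      have hx : (1 : ℝ) ≤ x := hx0.trans hx1
      calc |∑ n ∈ Icc 1 x, w n * liouville ((product (fun j => poly (P j) (a j)) G).eval (n : ℤ))|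
          ≤ ∑ n ∈ Icc 1 x, |w n * liouville ((product (fun j => poly (P j) (a j)) G).eval (n : ℤ))| := abs_sum_le_sum_abs _ _
        _ ≤ ∑ _n ∈ Icc 1 x, (1 : ℝ) := by
            apply sum_le_sum
            intro n _
            rw [abs_mul]
            have h1 : |liouville ((product (fun j => poly (P j) (a j)) G).eval (n : ℤ))| ≤ 1 := lam_abs _
            exact mul_le_one₀ (hw n) (abs_nonneg _) h1
        _ = (x : ℝ) ^ (1 : ℝ) := by simp
        _ ≤ (x : ℝ) ^ (1 / 2 + ε) := Real.rpow_le_rpow_of_exponent_le hx (by linarith)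
    have hx00 : 0 < x0 := by linarith
    rw [hemp, Set.ncard_empty, Nat.cast_zero]
    positivity

end Pool.Agent.Results.MP_892e4c_nt.CorrelationsOfRandomPolynomials
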