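import Pool.Agent.T9h57.LN.Fin2

/-!
# Products of a polynomial and a linear polynomial whose constant term lies in a thin progression

Let `f = g (c X + h)` with an arbitrary integer polynomial `g`, a fixed range of `c ≠ 0`, and `h` in a
residue class modulo `q`, where `q` may be as large as `x ^ (1 - ρ)`. For almost all `h` in every class
the sums of `λ(f(n))`, also with arbitrary bounded weights, are small up to `x`. This holds for all
moduli `q` which are not divisible by any member of a very small set of integers with large radical; in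
particular for all `q` whose radical is at most a power of `log x`, such as the powers of a fixed integer.
-/

set_option autoImplicit false

namespace Pool.Agent.Results.MP_892e4c_nt.EveryClassOffFewModuli

open Finset

/-- the Liouville function on the integers: `λ(m) = (-1)^Ω(|m|)` for `m ≠ 0`, and `λ(0) = 0` -/
noncomputable def liouville (m : ℤ) : ℂ := if m = 0 then 0 else (-1) ^ ArithmeticFunction.cardFactors m.natAbs

/-- the radical: the product of the primes dividing `m` -/
def radical (m : ℕ) : ℕ := ∏ p ∈ m.primeFactors, p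

/-- the polynomial `g (c X + h)` -/
noncomputable def poly (g : Polynomial ℤ) (c h : ℤ) : Polynomial ℤ :=
  g * (Polynomial.C c * Polynomial.X + Polynomial.C h)

/-- the set of the integers `h` with `|h| ≤ x` and `h ≡ a` modulo `q` such that the sum of
`F(n) λ(f(n))` over the positive integers `n ≤ y`, where `f = g (c X + h)`, is larger than `ε x` in
absolute value for some `y ≤ x` -/
def Bad (ε x : ℝ) (q : ℕ) (a c : ℤ) (g : Polynomial ℤ) (F : ℕ → ℂ) : Set ℤ :=
  {h : ℤ | |(h : ℝ)| ≤ x ∧ h ≡ a [ZMOD q] ∧ ∃ y : ℕ, (y : ℝ) ≤ x ∧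
    ε * x < ‖∑ n ∈ Icc 1 y, F n * liouville ((poly g c h).eval (n : ℤ))‖}

lemma rad_eq (m : ℕ) : radical m = Pool.Agent.T9h57.PK.rad m := rfl

lemma liouville_eq (m : ℤ) : liouville m = Pool.Agent.T9h57.LM.lc m.natAbs := by
  unfold liouville Pool.Agent.T9h57.LM.lc
  rcases eq_or_ne m 0 with rfl | hm
  · rw [if_pos rfl, Int.natAbs_zero, Pool.Agent.N403.QG.la_zero]
    norm_num
  · rw [if_neg hm, Pool.Agent.N403.QG.la_eq (Int.natAbs_ne_zero.2 hm)]
    push_cast
    rfl

lemma liouville_mul (m n : ℤ) : liouville (m * n) = liouville m * liouville n := by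
  rw [liouville_eq, liouville_eq, liouville_eq, Int.natAbs_mul, Pool.Agent.T9h57.LM.lc_mul]

lemma liouville_norm (m : ℤ) : ‖liouville m‖ ≤ 1 := by
  rw [liouville_eq]
  exact Pool.Agent.T9h57.LM.lc_norm _

lemma liouville_poly (g : Polynomial ℤ) (c h : ℤ) (n : ℤ) :
    liouville ((poly g c h).eval n) = liouville (g.eval n) * liouville (c * n + h) := by
  unfold poly
  rw [Polynomial.eval_mul, liouville_mul]
  congr 2
  simp

/-- **Almost all shifts in every residue class.** Let `ε, ρ > 0` and `K` be fixed. There is a number `c₀`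
such that for all `T` and all sufficiently large `x` there is a set `D` of at most `(log x)^c₀` integers
with radical larger than `(log x)^T`, such that the following holds for all moduli `1 ≤ q ≤ x ^ (1 - ρ)`
which are not divisible by any member of `D`, all residue classes `a` modulo `q`, all integer polynomials
`g`, all nonzero integers `c` with `|c| ≤ K` and all functions `F` with `|F| ≤ 1`: for all but at most
`ε x / q` of the integers `h`, `|h| ≤ x`, in the class `a` modulo `q` the sums of `F(n) λ(f(n))` over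
`n ≤ y`, where `f = g (c X + h)`, are at most `ε x` in absolute value for all `y ≤ x`. -/
theorem result (ε ρ : ℝ) (hε : 0 < ε) (hρ : 0 < ρ) (K : ℕ) :
    ∃ c₀ : ℕ, ∀ T : ℕ, ∃ x₀ : ℝ, ∀ x : ℝ, x₀ ≤ x → ∃ D : Finset ℕ, (#D : ℝ) ≤ Real.log x ^ c₀ ∧
      (∀ d ∈ D, Real.log x ^ T < radical d) ∧
      ∀ q : ℕ, 1 ≤ q → (q : ℝ) ≤ x ^ (1 - ρ) → (∀ d ∈ D, ¬ d ∣ q) →
        ∀ (a : ℤ) (g : Polynomial ℤ) (c : ℤ), c ≠ 0 → |c| ≤ K → ∀ F : ℕ → ℂ, (∀ n, ‖F n‖ ≤ 1) →
          (Bad ε x q a c g F).Finite ∧ ((Bad ε x q a c g F).ncard : ℝ) ≤ ε * x / q := by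
  obtain ⟨c₀, h⟩ := Pool.Agent.T9h57.LN.final_pos hε hρ K
  refine ⟨c₀, fun T => ?_⟩
  obtain ⟨x₀, h⟩ := h T
  refine ⟨x₀, fun x hx => ?_⟩
  obtain ⟨D, hD1, hD2, h⟩ := h x hx
  refine ⟨D, hD1, hD2, fun q hq1 hq hqD a g c hc hcK F hF => ?_⟩
  obtain ⟨Φ, hΦ⟩ : ∃ Φ : ℕ → ℂ, Φ = fun n => F n * liouville (g.eval (n : ℤ)) := ⟨_, rfl⟩
  have hΦ1 : ∀ n, ‖Φ n‖ ≤ 1 := by
    intro n
    rw [hΦ, norm_mul]
    exact mul_le_one₀ (hF n) (norm_nonneg _) (liouville_norm _)
  obtain ⟨k, hk⟩ : ∃ k : ℕ, k = c.natAbs := ⟨_, rfl⟩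
  have hk1 : 1 ≤ k := by
    rw [hk]
    exact Int.natAbs_pos.2 hc
  have hkK : k ≤ K := by
    rw [hk]
    rw [Int.abs_eq_natAbs] at hcK
    exact_mod_cast hcK
  rcases lt_or_gt_of_ne hc with hneg | hpos
  · -- the negative case: pass from `h` to `-h`
    have hck : c = -(k : ℤ) := by
      rw [hk]
      omega
    obtain ⟨h1, h2⟩ := h q hq1 hq hqD k hk1 hkK (-a) Φ hΦ1
    have hset : Bad ε x q a c g F = (fun h : ℤ => -h) '' {h : ℤ | |(h : ℝ)| ≤ x ∧ h ≡ -a [ZMOD q] ∧
        ∃ y : ℕ, (y : ℝ) ≤ x ∧ ε * x < ‖Pool.Agent.T9h57.LN.TT k y Φ h‖} := by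
      ext j
      unfold Bad
      rw [Set.mem_ofPred_eq, Set.mem_image]
      have key : ∀ y : ℕ, ∑ n ∈ Icc 1 y, F n * liouville ((poly g c j).eval (n : ℤ)) =
          Pool.Agent.T9h57.LN.TT k y Φ (-j) := by
        intro y
        unfold Pool.Agent.T9h57.LN.TT
        refine sum_congr rfl fun n _ => ?_
        rw [liouville_poly, hΦ, ← mul_assoc, liouville_eq (c * n + j)]
        congr 2
        rw [hck, show -(k : ℤ) * n + j = -((k : ℤ) * n + -j) by ring, Int.natAbs_neg]
      constructor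
      · rintro ⟨h3, h4, y, h5, h6⟩
        refine ⟨-j, ⟨?_, Int.ModEq.neg h4, y, h5, ?_⟩, neg_neg j⟩
        · push_cast
          rw [abs_neg]
          exact h3
        · rw [← key]
          exact h6
      · rintro ⟨i, ⟨h3, h4, y, h5, h6⟩, rfl⟩
        refine ⟨?_, ?_, y, h5, ?_⟩
        · push_cast
          rw [abs_neg]
          exact h3
        · have := Int.ModEq.neg h4
          rwa [neg_neg] at this
        · rw [key, neg_neg]
          exact h6
    rw [hset]
    refine ⟨h1.image _, ?_⟩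
    rw [Set.ncard_image_of_injective _ neg_injective]
    exact h2
  · have hck : c = (k : ℤ) := by
      rw [hk]
      omega
    have hset : Bad ε x q a c g F = {h : ℤ | |(h : ℝ)| ≤ x ∧ h ≡ a [ZMOD q] ∧
        ∃ y : ℕ, (y : ℝ) ≤ x ∧ ε * x < ‖Pool.Agent.T9h57.LN.TT k y Φ h‖} := by
      unfold Bad
      ext j
      rw [Set.mem_ofPred_eq, Set.mem_ofPred_eq]
      have key : ∀ y : ℕ, ∑ n ∈ Icc 1 y, F n * liouville ((poly g c j).eval (n : ℤ)) =
          Pool.Agent.T9h57.LN.TT k y Φ j := by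
        intro y
        unfold Pool.Agent.T9h57.LN.TT
        refine sum_congr rfl fun n _ => ?_
        rw [liouville_poly, hΦ, ← mul_assoc, liouville_eq (c * n + j), hck]
      simp_rw [key]
    rw [hset]
    exact h q hq1 hq hqD k hk1 hkK a Φ hΦ1

end Pool.Agent.Results.MP_892e4c_nt.EveryClassOffFewModuli
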