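import Mathlib
import Pool.Agent.T9h23.Li.F4

set_option autoImplicit false

/-!
# One value of the Liouville function and arbitrary functions of the other values, also at prime points

Let `f_1, …, f_r` be random polynomials, `f_j = P_j + a_{j,0} + a_{j,1} X + ⋯ + a_{j,d_j} X ^ d_j`, where the `P_j` are
fixed polynomials and the `a_{j,i}` are independent and uniform in `[-H, H]`, and for each `j` let `G_j` be a set of at
most `d_j` nonconstant integer polynomials (for instance `X, X + 2, X + 6, …, X ^ 2, …`). The Liouville function at ONE of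
the values `f_j(g(n))`, `g ∈ G_j`, is orthogonal to ARBITRARY bounded functions `Φ_n` of all the other values: for almost
all `(f_1, …, f_r)`
`|∑_{n ≤ x} λ(f_i(h(n))) Φ_n((f_j(g(n)))_{(j,g) ≠ (i,h)})| ≤ (x / (log H) ^ k') ^ (1/2 + ε)` for all
`x₀ ≤ x ≤ (log H) ^ A`, if `Φ_n` vanishes unless `k'` of the other values are primes (`k' = 0` is allowed). The number of
the `n` which contribute is about `x / (log H) ^ k'`, and `x₀` may be as small as `(log H) ^ (k' + ε)`: there is square
root cancellation as soon as the sum has `(log H) ^ ε` terms. Examples: `Φ_n` a product of values of `λ` (Chowla), or the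
indicator function of the `n` such that `f(n + 2)` and `f(n + 6)` are primes, times a product of values of `λ`
(Hardy-Littlewood and Chowla), or any function of the sizes, the prime factors or the digits of the other values.

Proof (`Pool/Agent/T9h23`). Second moments over the `f_j`. If the points of `n` and of `m` are different, `f_i` is shifted
by `a ∏ (X - s) + b ∏ (X - t)` with the products over the other points of `n` and the points of `m`: the two functions
of the other values depend on one of `a`, `b` only, `f_i(h(n))` is moved to `f + a α + b β`, and Davenport's bound for the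
exponential sums of `λ` applies. The other pairs `(n, m)` are few, and each of them contributes at most the probability
of `k'` prime values. All `x` are treated at once by dyadic chaining.
-/

namespace Pool.Agent.Results.MP_892e4c_nt.HardyLittlewoodChowla

open Finset Polynomial

/-- The Liouville function on the integers: `λ(m) = (-1) ^ Ω(|m|)` for `m ≠ 0` and `λ(0) = 0`. -/
noncomputable def liouville (m : ℤ) : ℝ := if m = 0 then 0 else (-1) ^ ArithmeticFunction.cardFactors m.natAbs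

/-- The polynomial `P + a 0 + a 1 X + ⋯ + a d X ^ d`. -/
noncomputable def poly {d : ℕ} (P : ℤ[X]) (a : Fin (d + 1) → ℤ) : ℤ[X] := P + ∑ i, C (a i) * X ^ (i : ℕ)

variable {r : ℕ}

/-- The table of the values `f_j(g(n))`. -/
noncomputable def values (f : Fin r → ℤ[X]) (n : ℕ) : Fin r → ℤ[X] → ℤ := fun j g => ((f j).comp g).eval (n : ℤ)

/-- The number of the polynomials of a system. -/
def size (G : Fin r → Finset ℤ[X]) : ℕ := ∑ j, (G j).card

/-- The polynomials in `G` are nonconstant, of degree at most `D` and with coefficients at most `B`. -/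
def Bounded (D : ℕ) (B : ℝ) (G : Fin r → Finset ℤ[X]) : Prop :=
  ∀ j, ∀ g ∈ G j, 1 ≤ g.natDegree ∧ g.natDegree ≤ D ∧ ∀ i, |(g.coeff i : ℝ)| ≤ B

/-- `Φ n` is a bounded function of the values with the indices `(j, g) ≠ (i, h)`, `g ∈ G j`, and vanishes unless the values
with the indices in `G'` are primes (up to sign). -/
structure OtherValues (G G' : Fin r → Finset ℤ[X]) (i : Fin r) (h : ℤ[X]) (Φ : ℕ → (Fin r → ℤ[X] → ℤ) → ℝ) : Prop where
  bounded : ∀ n v, |Φ n v| ≤ 1
  others : ∀ n v v', (∀ j, ∀ g ∈ G j, ¬ (j = i ∧ g = h) → v j g = v' j g) → Φ n v = Φ n v'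
  primes : ∀ n v, Φ n v ≠ 0 → ∀ j, ∀ g ∈ G' j, (v j g).natAbs.Prime

/-- `|∑_{n ≤ x} λ(f_i(h(n))) Φ_n(values)| ≤ (x / K) ^ (1/2 + ε)` for all `x₀ ≤ x ≤ X`. -/
def Cancels (f : Fin r → ℤ[X]) (i : Fin r) (h : ℤ[X]) (Φ : ℕ → (Fin r → ℤ[X] → ℤ) → ℝ) (K ε x₀ X : ℝ) : Prop :=
  ∀ x : ℕ, x₀ ≤ x → (x : ℝ) ≤ X →
    |∑ n ∈ Icc 1 x, liouville (values f n i h) * Φ n (values f n)| ≤ ((x : ℝ) / K) ^ (1 / 2 + ε)

open Pool.Agent.T9h23.Cor Pool.Agent.T9h23.BH Pool.Agent.T9h23.Li Pool.Agent.H373R2.T7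

lemma values_eq {d : Fin r → ℕ} (P : Fin r → ℤ[X]) (a : (j : Fin r) → Fin (d j + 1) → ℤ) (n : ℕ) :
    values (fun j => poly (P j) (a j)) n = vals P a n := by
  funext j g
  unfold values vals
  rw [eval_comp]
  exact hpol_eval (P j) (a j) _

/-- Let `0 < ε ≤ 1`. For every `A`, every large `H`, all polynomials `P_j` of degree at most `D` with coefficients at
most `H (log H) ^ A`, all sets `G_j` of at most `d_j` polynomials of degrees between `1` and `D` with coefficients at most
`(log H) ^ A`, all subsets `G'_j` of `G_j`, `k' = ∑ |G'_j|`, every index `(i, h)`, `h ∈ G_i`, all bounded functions `Φ_n`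
of the other values which vanish unless the values for `G'` are primes, and every `x₀ ≥ (log H) ^ (k' + ε)`: the number
of the integers `a_{j,l}` (`j < r`, `0 ≤ l ≤ d_j`) with `|a_{j,l}| ≤ H` for which the bound fails for
`f_j = P_j + ∑ a_{j,l} X ^ l` is at most `∏ (2 H + 1) ^ (d_j + 1) / (x₀ / (log H) ^ k') ^ ε`. -/
theorem result (r D : ℕ) (d : Fin r → ℕ) (ε : ℝ) (hε : 0 < ε) (hε1 : ε ≤ 1) (A : ℕ) : ∃ H₀ : ℕ, ∀ H : ℕ, H₀ ≤ H →
    ∀ P : Fin r → ℤ[X], (∀ j, (P j).natDegree ≤ D) → (∀ j i, |((P j).coeff i : ℝ)| ≤ H * Real.log H ^ A) →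
    ∀ G G' : Fin r → Finset ℤ[X], (∀ j, (G j).card ≤ d j) → Bounded D (Real.log H ^ A) G → (∀ j, G' j ⊆ G j) →
    ∀ (i : Fin r) (h : ℤ[X]), h ∈ G i → ∀ Φ : ℕ → (Fin r → ℤ[X] → ℤ) → ℝ, OtherValues G G' i h Φ →
    ∀ x₀ : ℝ, Real.log H ^ ((size G' : ℝ) + ε) ≤ x₀ →
    ({a : (j : Fin r) → Fin (d j + 1) → ℤ | (∀ j l, |a j l| ≤ H) ∧
      ¬ Cancels (fun j => poly (P j) (a j)) i h Φ (Real.log H ^ size G') ε x₀ (Real.log H ^ A)}.ncard : ℝ) ≤
      (∏ j, (2 * (H : ℝ) + 1) ^ (d j + 1)) / (x₀ / Real.log H ^ size G') ^ ε := by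
  classical
  obtain ⟨H0, h0⟩ := finH r d D ε hε hε1 A
  refine ⟨H0, fun H hH P hP1 hP2 G G' hG1 hG2 hGG i h hh Φ hΦ x0 hx0 => ?_⟩
  have hmain := h0 H hH P G G' ⟨hG1, fun j g hg => ⟨(hG2 j g hg).1, (hG2 j g hg).2.1⟩⟩
    ⟨hP1, hP2, fun j g hg l => (hG2 j g hg).2.2 l⟩ hGG i h hh Φ ⟨hΦ.bounded, hΦ.others, hΦ.primes⟩ x0 hx0
  refine le_trans (Nat.cast_le.2 ?_) hmain
  rw [← Set.ncard_coe_finset]
  apply Set.ncard_le_ncard _ (finite_toSet _)
  rintro a ⟨ha1, ha2⟩
  rw [mem_coe, mem_filter]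
  refine ⟨?_, fun hC => ha2 fun x hx1 hx2 => ?_⟩
  · unfold Om
    rw [Fintype.mem_piFinset]
    intro j
    rw [mem_Box]
    exact ha1 j
  · have h1 := hC x hx1 hx2
    simp only [values_eq]
    exact h1

end Pool.Agent.Results.MP_892e4c_nt.HardyLittlewoodChowla
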